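import Pool.Agent.Helper6.HM.Final

/-!
# The form factor at every location (MP_8958e8_nt)

Unconditionally, for `0 < θ ≤ 1` and `ε > 0`, all large `T` satisfy, for ALL real `b`,
`∫ max(0, θ - |x - b|) F_T(x) dx ≥ 2 θ² - θ - θ³ / 3 - ε`; for `θ = 1` the right side is `2/3 - ε`.

Proof: the Hermitian form of the project HM for the functions `T^{x(ρ - 1/2)}` on `[-θ/2, θ/2]` together with
`[b - θ/2, b + θ/2]`: trace `2 N`, at most `N` positive squares.
-/

set_option autoImplicit false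

open Matrix Finset MeasureTheory Filter Topology
open scoped ComplexOrder ComplexConjugate
open Pool.Agent.Helper57.LH Pool.Agent.Helper57.PC Pool.Agent.Helper57.Zeta Pool.Agent.Helper57.FL
open Pool.Agent.Helper6.HM

namespace Pool.Agent.Helper54.FF

/-- the kernel of the two intervals -/
noncomputable def EB (T th b : ℝ) (w : ℂ) : ℂ :=
  (1 / 2) * (1 + Complex.exp ((b : ℂ) * ((Real.log T : ℂ) * w))) * Gam T th w

/-- the weights of the second interval -/
noncomputable def dg {ι : Type*} (T b : ℝ) (r : ι → ℂ) (j : ι) : ℂ :=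
  Complex.exp ((b : ℂ) * ((Real.log T : ℂ) * (r j - 1 / 2)))

lemma EB_psd {ι : Type*} [Fintype ι] [DecidableEq ι] (T : ℝ) {th : ℝ} (hth : 0 < th) (b : ℝ) (r : ι → ℂ) :
    (Matrix.of fun i j => EB T th b (conj (r i) + r j - 1) : Matrix ι ι ℂ).PosSemidef := by
  have h1 := Gram_psd T hth r
  have h2 := h1.conjTranspose_mul_mul_same (Matrix.diagonal (dg T b r))
  have h3 := (h1.add h2).conjTranspose_mul_mul_same (Matrix.diagonal fun _ : ι => ((Real.sqrt (1 / 2) : ℝ) : ℂ))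
  have hs : ((Real.sqrt (1 / 2) : ℝ) : ℂ) * ((Real.sqrt (1 / 2) : ℝ) : ℂ) = 1 / 2 := by
    rw [← Complex.ofReal_mul, Real.mul_self_sqrt (by norm_num)]
    push_cast
    ring
  convert h3 using 1
  ext i j
  rw [Matrix.of_apply, Matrix.diagonal_conjTranspose, Matrix.mul_diagonal, Matrix.diagonal_mul, Matrix.add_apply,
    Matrix.diagonal_conjTranspose, Matrix.mul_diagonal, Matrix.diagonal_mul]
  unfold Gram
  rw [Matrix.of_apply]
  simp only [Pi.star_apply, RCLike.star_def, Complex.conj_ofReal]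
  unfold EB dg
  rw [← Complex.exp_conj]
  simp only [map_mul, map_sub, map_div₀, map_one, Complex.conj_ofReal, Complex.conj_ofNat]
  have e : Complex.exp ((b : ℂ) * ((Real.log T : ℂ) * (conj (r i) + r j - 1))) =
      Complex.exp ((b : ℂ) * ((Real.log T : ℂ) * (conj (r i) - 1 / 2))) *
        Complex.exp ((b : ℂ) * ((Real.log T : ℂ) * (r j - 1 / 2))) := by
    rw [← Complex.exp_add]
    congr 1
    ring
  rw [e]
  linear_combination (-(Gam T th (conj (r i) + r j - 1) +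
    Complex.exp ((b : ℂ) * ((Real.log T : ℂ) * (conj (r i) - 1 / 2))) * Gam T th (conj (r i) + r j - 1) *
      Complex.exp ((b : ℂ) * ((Real.log T : ℂ) * (r j - 1 / 2))))) * hs

open Classical in
/-- the data of the zeros for the two intervals -/
noncomputable def ZB (T : ℝ) {th : ℝ} (hth : 0 < th) (b : ℝ) : Data {ρ : ℂ // ρ ∈ Zf T} where
  E := Matrix.of fun i j => EB T th b (conj (i : ℂ) + (j : ℂ) - 1)
  hE := EB_psd T hth b _
  st i := ⟨1 - conj (i : ℂ), (st_mem i.2).1⟩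
  hst i := by
    apply Subtype.ext
    simp
  hE1 i := by
    show EB T th b (conj (i : ℂ) + (1 - conj (i : ℂ)) - 1) = 1
    rw [add_sub_cancel, sub_self]
    unfold EB
    rw [Gam_zero T hth]
    simp
    norm_num
  m i := mult (i : ℂ)
  hm i := one_le_mult i.2
  hms i := (st_mem i.2).2

/-- the shifted pair sum -/
noncomputable def Sb (T th b : ℝ) : ℂ :=
  ∑ ρ ∈ Zf T, ∑ σ ∈ Zf T, (mx ρ : ℂ) * mx σ * (Gam T th (ρ - σ) ^ 2 *
    Complex.exp ((b : ℂ) * ((Real.log T : ℂ) * (ρ - σ))))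

lemma Sb_neg (T th b : ℝ) : Sb T th (-b) = Sb T th b := by
  unfold Sb
  rw [Finset.sum_comm]
  refine sum_congr rfl fun ρ _ => sum_congr rfl fun σ _ => ?_
  rw [← Gam_neg T th (σ - ρ), neg_sub]
  have : ((-b : ℝ) : ℂ) * ((Real.log T : ℂ) * (σ - ρ)) = (b : ℂ) * ((Real.log T : ℂ) * (ρ - σ)) := by
    push_cast
    ring
  rw [this]
  ring

open Classical in
/-- the number of simple zeros on the line and the pair sums -/
theorem far_sum {T th : ℝ} (hT : 1 < T) (hth : 0 < th) (b : ℝ) :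
    2 * (2 * NT T - (US T).card) ≤ (Sb T th 0 + Sb T th b).re := by
  set D := ZB T hth b with hD
  have hsim : ∀ i : {ρ : ℂ // ρ ∈ Zf T}, D.Sim i ↔ (i : ℂ) ∈ Sc T := by
    intro i
    rw [mem_Sc]
    have h1 : D.st i = i ↔ (i : ℂ).re = 1 / 2 := by
      rw [Subtype.ext_iff]
      show 1 - conj (i : ℂ) = (i : ℂ) ↔ _
      rw [Complex.ext_iff]
      simp only [Complex.sub_re, Complex.one_re, Complex.conj_re, Complex.sub_im, Complex.one_im, Complex.conj_im]
      constructor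
      · rintro ⟨h, -⟩; linarith
      · intro h; constructor <;> linarith
    unfold Data.Sim
    rw [h1]
    show _ ∧ mult (i : ℂ) = 1 ↔ _
    exact ⟨fun h => ⟨i.2, h⟩, fun h => h.2⟩
  have hSub : Sc T ⊆ Zf T := fun ρ hρ => (mem_Sc.1 hρ).1
  have hsum1 : ∀ f : ℂ → ℝ, ∑ j : {ρ : ℂ // ρ ∈ Zf T}, (if (j : ℂ) ∈ Sc T then f (j : ℂ) else 0) = ∑ σ ∈ Sc T, f σ := by
    intro f
    rw [Finset.sum_coe_sort (Zf T) (fun σ => if σ ∈ Sc T then f σ else 0), Finset.sum_ite_mem, Finset.inter_eq_right.2 hSub]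
  have hadm : D.Adm (fun _ _ => 0) := by
    refine ⟨fun i j => by simp, fun i j h => absurd rfl h, fun i => by simp⟩
  have hmain := Data.main D hadm
  have e1 : ∑ i, (if D.st i = i ∧ D.m i = 1 then (1:ℝ) else 2 * D.m i) = 2 * NT T - (US T).card := by
    have h1 : ∀ i, (if D.st i = i ∧ D.m i = 1 then (1:ℝ) else 2 * D.m i) =
        2 * (mult (i : ℂ) : ℝ) - (if (i : ℂ) ∈ Sc T then (fun _ : ℂ => (1:ℝ)) (i : ℂ) else 0) := by
      intro i
      have h2 := hsim i
      unfold Data.Sim at h2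
      by_cases h3 : (i : ℂ) ∈ Sc T
      · rw [if_pos (h2.2 h3), if_pos h3, (mem_Sc.1 h3).2.2]
        norm_num
      · rw [if_neg (fun h' => h3 (h2.1 h')), if_neg h3, sub_zero]
        rfl
    rw [sum_congr rfl fun i _ => h1 i, sum_sub_distrib, hsum1 (fun _ => 1), ← mul_sum,
      Finset.sum_coe_sort (Zf T) (fun ρ => (mult ρ : ℝ)), card_US hT]
    simp [NT]
  have e2 : ∑ i, ∑ j, (2 * (D.E j i * (fun _ _ => (0 : ℂ)) i j).re - ‖(fun _ _ : {ρ : ℂ // ρ ∈ Zf T} => (0 : ℂ)) i j‖ ^ 2) =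
      (0 : ℝ) := by
    simp
  have e3 : ∑ i, ∑ j, (D.m i : ℂ) * D.m j * (D.E (D.st i) j * D.E (D.st j) i) =
      (1 / 2) * (Sb T th 0 + Sb T th b) := by
    have e4 : (1 / 2 : ℂ) * (Sb T th 0 + Sb T th b) = (1 / 4) * (2 * Sb T th 0 + Sb T th b + Sb T th (-b)) := by
      rw [Sb_neg]
      ring
    have e5 : (1 / 4 : ℂ) * (2 * Sb T th 0 + Sb T th b + Sb T th (-b)) = ∑ ρ ∈ Zf T, ∑ σ ∈ Zf T,
        (mx ρ : ℂ) * mx σ * (EB T th b (ρ - σ) * EB T th b (-(ρ - σ))) := by
      unfold Sb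
      rw [Finset.mul_sum, ← sum_add_distrib, ← sum_add_distrib, Finset.mul_sum]
      refine sum_congr rfl fun ρ _ => ?_
      rw [Finset.mul_sum, ← sum_add_distrib, ← sum_add_distrib, Finset.mul_sum]
      refine sum_congr rfl fun σ _ => ?_
      unfold EB
      rw [Gam_neg]
      have e6 : ((-b : ℝ) : ℂ) * ((Real.log T : ℂ) * (ρ - σ)) = (b : ℂ) * ((Real.log T : ℂ) * (-(ρ - σ))) := by
        push_cast
        ring
      have e7 : Complex.exp ((b : ℂ) * ((Real.log T : ℂ) * (ρ - σ))) *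
          Complex.exp ((b : ℂ) * ((Real.log T : ℂ) * (-(ρ - σ)))) = 1 := by
        rw [← Complex.exp_add]
        have : (b : ℂ) * ((Real.log T : ℂ) * (ρ - σ)) + (b : ℂ) * ((Real.log T : ℂ) * (-(ρ - σ))) = 0 := by ring
        rw [this, Complex.exp_zero]
      rw [e6]
      simp only [Complex.ofReal_zero, zero_mul, Complex.exp_zero, mul_one]
      linear_combination (-(1 / 4 : ℂ) * (mx ρ : ℂ) * mx σ * Gam T th (ρ - σ) ^ 2) * e7
    rw [e4, e5]
    rw [← Finset.sum_coe_sort (Zf T) (fun ρ => ∑ σ ∈ Zf T, (mx ρ : ℂ) * mx σ * (EB T th b (ρ - σ) * EB T th b (-(ρ - σ))))]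
    refine sum_congr rfl fun i _ => ?_
    rw [← Finset.sum_coe_sort (Zf T) (fun σ => (mx (i : ℂ) : ℂ) * mx σ * (EB T th b ((i : ℂ) - σ) * EB T th b (-((i : ℂ) - σ))))]
    refine sum_congr rfl fun j _ => ?_
    have h1 : D.E (D.st i) j = EB T th b (-((i : ℂ) - j)) := by
      show EB T th b (conj (1 - conj (i : ℂ)) + (j : ℂ) - 1) = _
      congr 1
      simp only [map_sub, map_one, Complex.conj_conj]
      ring
    have h2 : D.E (D.st j) i = EB T th b ((i : ℂ) - j) := by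
      show EB T th b (conj (1 - conj (j : ℂ)) + (i : ℂ) - 1) = _
      congr 1
      simp only [map_sub, map_one, Complex.conj_conj]
      ring
    have h3 : ∀ k : {ρ : ℂ // ρ ∈ Zf T}, (D.m k : ℂ) = (mx (k : ℂ) : ℂ) := by
      intro k
      show ((mult (k : ℂ) : ℕ) : ℂ) = _
      rw [mult_eq (mem_Zf.1 k.2).1]
      unfold mx
      simp
    rw [h1, h2, h3, h3]
    ring
  rw [e1, e3] at hmain
  have e8 : ((1 / 2 : ℂ) * (Sb T th 0 + Sb T th b)).re = (Sb T th 0 + Sb T th b).re / 2 := by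
    have : (1 / 2 : ℂ) = ((1 / 2 : ℝ) : ℂ) := by push_cast; ring
    rw [this, Complex.re_ofReal_mul]
    ring
  rw [e8] at hmain
  have e9 : (∑ i : {ρ : ℂ // ρ ∈ Zf T}, ∑ j : {ρ : ℂ // ρ ∈ Zf T}, (2 * (D.E j i * 0).re - ‖(0 : ℂ)‖ ^ 2)) = (0 : ℝ) := by
    simp
  rw [e9] at hmain
  linarith

open Pool.Agent.Helper99.HZ (fej fej_cont fej_nonneg fej_supp ff_sum box_sq fejer_limit)

/-- the shifted trace identity -/
theorem Sb_eq {T th : ℝ} (hT : 1 < T) (hth : 0 < th) (b : ℝ) :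
    Sb T th b = ((SN T * ∫ x, fej th (x - b) * ff T x : ℝ) : ℂ) := by
  have hT0 : 0 < T := by linarith
  have h0 : ∫ x, fej th (x - b) * ff T x = ∫ x, fej th x * ff T (x + b) := by
    rw [← integral_add_right_eq_self (fun x => fej th (x - b) * ff T x) b]
    refine integral_congr_ae (Filter.Eventually.of_forall fun x => ?_)
    simp only [add_sub_cancel_right]
  have hsup : ∀ x, x ∉ Set.Icc (-th) th → fej th x * ff T (x + b) = 0 := by
    intro x hx
    have : th ≤ |x| := by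
      by_contra h
      push Not at h
      apply hx
      have := abs_lt.mp h
      exact ⟨by linarith, by linarith⟩
    rw [fej_supp this, zero_mul]
  have h1 : ∫ x, fej th x * ff T (x + b) = ∫ x in (-th)..th, fej th x * ff T (x + b) := by
    rw [intervalIntegral.integral_of_le (by linarith), ← integral_Icc_eq_integral_Ioc]
    exact (setIntegral_eq_integral_of_forall_compl_eq_zero hsup).symm
  rw [h0, h1, ← intervalIntegral.integral_const_mul, ← intervalIntegral.integral_ofReal]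
  have h2 : ∀ x ∈ Set.uIcc (-th) th, ((SN T * (fej th x * ff T (x + b)) : ℝ) : ℂ) =
      ∑ ρ ∈ Zf T, ∑ σ ∈ Zf T, ((mx ρ : ℂ) * (mx σ : ℂ) * Complex.exp ((b : ℂ) * ((Real.log T : ℂ) * (ρ - σ)))) *
        ((th : ℂ)⁻¹ ^ 2 * (((th - |x| : ℝ) : ℂ) * Complex.exp ((x : ℂ) * ((Real.log T : ℂ) * (ρ - σ))))) := by
    intro x hx
    rw [Set.uIcc_of_le (by linarith)] at hx
    have e1 : SN T * (fej th x * ff T (x + b)) =
        fej th x * (T * Real.log T / (2 * Real.pi) * ff T (x + b)) := by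
      unfold SN
      ring
    rw [e1, Complex.ofReal_mul, ff_sum hT, Finset.mul_sum]
    refine Finset.sum_congr rfl fun ρ _ => ?_
    rw [Finset.mul_sum]
    refine Finset.sum_congr rfl fun σ _ => ?_
    have e2 : fej th x = (th - |x|) / th ^ 2 := by
      unfold fej
      rw [max_eq_right]
      have : |x| ≤ th := abs_le.mpr ⟨hx.1, hx.2⟩
      linarith
    have e3 : Complex.exp (((x + b : ℝ) : ℂ) * ((Real.log T : ℂ) * (ρ - σ))) =
        Complex.exp ((b : ℂ) * ((Real.log T : ℂ) * (ρ - σ))) * Complex.exp ((x : ℂ) * ((Real.log T : ℂ) * (ρ - σ))) := by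
      rw [← Complex.exp_add]
      congr 1
      push_cast
      ring
    rw [e2, e3]
    push_cast
    field_simp
  rw [intervalIntegral.integral_congr h2, intervalIntegral.integral_finsetSum]
  · unfold Sb
    refine Finset.sum_congr rfl fun ρ _ => ?_
    rw [intervalIntegral.integral_finsetSum]
    · refine Finset.sum_congr rfl fun σ _ => ?_
      rw [intervalIntegral.integral_const_mul, intervalIntegral.integral_const_mul]
      have h3 := box_sq (c := th / 2) (by linarith) ((Real.log T : ℂ) * (ρ - σ))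
      rw [show 2 * (th / 2) = th by ring] at h3
      rw [← h3, Gam_eq]
      unfold Pool.Agent.Helper99.HZ.Gam
      rw [mul_pow]
      ring
    · intro σ _
      refine Continuous.intervalIntegrable ?_ _ _
      fun_prop
  · intro ρ _
    refine Continuous.intervalIntegrable ?_ _ _
    refine continuous_finsetSum _ fun σ _ => ?_
    fun_prop

/-- **Main inequality.** -/
theorem far_ineq {T th : ℝ} (hT : 1 < T) (hth : 0 < th) (b : ℝ) :
    2 * (2 * NT T - (US T).card) ≤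
      SN T * (∫ x, fej th x * ff T x) + SN T * ∫ x, fej th (x - b) * ff T x := by
  have h := far_sum hT hth b
  rw [Sb_eq hT hth, Sb_eq hT hth, ← Complex.ofReal_add, Complex.ofReal_re] at h
  simpa only [sub_zero] using h

lemma card_US_le {T : ℝ} (hT : 1 < T) : ((US T).card : ℝ) ≤ NT T := by
  have h1 := far_sum hT one_pos 0
  rw [card_US hT]
  unfold NT
  have h2 : ((Sc T).card : ℝ) = ∑ ρ ∈ Sc T, (mult ρ : ℝ) := by
    rw [Finset.card_eq_sum_ones]
    push_cast
    refine sum_congr rfl fun ρ hρ => ?_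
    rw [(mem_Sc.1 hρ).2.2]
    simp
  rw [h2]
  refine Finset.sum_le_sum_of_subset_of_nonneg (fun ρ hρ => (mem_Sc.1 hρ).1) fun ρ _ _ => ?_
  positivity

/-- **Fejér means at every location.** -/
theorem far_fejer {th : ℝ} (hth : 0 < th) (hth1 : th < 1) {ε : ℝ} (hε : 0 < ε) :
    ∀ᶠ T : ℝ in atTop, ∀ b : ℝ, 2 - 1 / th - th / 3 - ε ≤ ∫ x, fej th (x - b) * ff T x := by
  obtain ⟨T₁, hT₁⟩ := NT_lower (ε / 4) (by positivity)
  have h1 := fejer_limit hth hth1 (ε := ε / 4) (by positivity)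
  filter_upwards [h1, eventually_ge_atTop T₁, eventually_ge_atTop (3:ℝ)] with T h2 h3 h4 b
  have hT1 : 1 < T := by linarith
  have hS : 0 < SN T := SN_pos hT1
  have h5 := far_ineq hT1 hth b
  have h6 := card_US_le hT1
  have h7 : (1 - ε / 4) * SN T ≤ NT T := hT₁ T h3
  have h8 : SN T * (∫ x, fej th x * ff T x) ≤ SN T * (1 / th + th / 3 + ε / 4) :=
    mul_le_mul_of_nonneg_left h2 hS.le
  have h9 : SN T * (2 - 1 / th - th / 3 - ε) ≤ SN T * ∫ x, fej th (x - b) * ff T x := by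
    have : 2 * NT T ≤ SN T * (1 / th + th / 3 + ε / 4) + SN T * ∫ x, fej th (x - b) * ff T x := by linarith
    nlinarith
  exact le_of_mul_le_mul_left h9 hS

lemma tri_int {θ b T : ℝ} (hT : 1 < T) : Integrable (fun x : ℝ => max 0 (θ - |x - b|) * ff T x) := by
  refine Continuous.integrable_of_hasCompactSupport ((by fun_prop : Continuous fun x : ℝ => max 0 (θ - |x - b|)).mul
    (ff_cont hT)) (HasCompactSupport.intro (isCompact_Icc (a := b - θ) (b := b + θ)) fun x hx => ?_)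
  have h : θ - |x - b| ≤ 0 := by
    by_contra h
    push Not at h
    have := abs_lt.mp (show |x - b| < θ by linarith)
    exact hx ⟨by linarith [this.1], by linarith [this.2]⟩
  rw [max_eq_left h, zero_mul]

/-- **The form factor at every location.** -/
theorem far {θ : ℝ} (h0 : 0 < θ) (h1 : θ ≤ 1) {ε : ℝ} (hε : 0 < ε) :
    ∀ᶠ T : ℝ in atTop, ∀ b : ℝ, 2 * θ ^ 2 - θ - θ ^ 3 / 3 - ε ≤ ∫ x, max 0 (θ - |x - b|) * ff T x := by
  obtain ⟨δ, hδ0, hδ1, hδ2⟩ : ∃ δ : ℝ, 0 < δ ∧ δ ≤ θ / 2 ∧ δ ≤ ε / 8 :=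
    ⟨min (θ / 2) (ε / 8), by positivity, min_le_left _ _, min_le_right _ _⟩
  obtain ⟨s, hs⟩ : ∃ s, s = θ - δ := ⟨_, rfl⟩
  have hs0 : 0 < s := by linarith
  have hs1 : s < 1 := by linarith
  filter_upwards [far_fejer hs0 hs1 (ε := ε / 2) (by positivity), eventually_ge_atTop (3:ℝ)] with T h2 h3 b
  have hT1 : 1 < T := by linarith
  have h4 := h2 b
  have h5 : ∫ x, max 0 (s - |x - b|) * ff T x = s ^ 2 * ∫ x, fej s (x - b) * ff T x := by
    rw [← integral_const_mul]
    refine integral_congr_ae (Filter.Eventually.of_forall fun x => ?_)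
    simp only [fej]
    field_simp
  have h6 : ∫ x, max 0 (s - |x - b|) * ff T x ≤ ∫ x, max 0 (θ - |x - b|) * ff T x := by
    refine integral_mono (tri_int hT1) (tri_int hT1) fun x => ?_
    refine mul_le_mul_of_nonneg_right ?_ (ff_nonneg hT1.le x)
    exact max_le_max le_rfl (by linarith)
  have h7 : s ^ 2 * (2 - 1 / s - s / 3 - ε / 2) ≤ s ^ 2 * ∫ x, fej s (x - b) * ff T x :=
    mul_le_mul_of_nonneg_left h4 (sq_nonneg s)
  have h8 : s ^ 2 * (2 - 1 / s - s / 3 - ε / 2) = 2 * s ^ 2 - s - s ^ 3 / 3 - s ^ 2 * (ε / 2) := by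
    field_simp
  have h9 : s ^ 2 * (ε / 2) ≤ ε / 2 := by
    have : s ^ 2 ≤ 1 := by nlinarith
    nlinarith
  have h10 : 2 * θ ^ 2 - θ - θ ^ 3 / 3 - (2 * s ^ 2 - s - s ^ 3 / 3) ≤ 4 * δ := by
    rw [hs]
    nlinarith [mul_nonneg hδ0.le h0.le, mul_nonneg hδ0.le (sub_nonneg.2 h1), mul_nonneg hδ0.le hδ0.le,
      mul_nonneg (mul_nonneg hδ0.le hδ0.le) (sub_nonneg.2 h1), mul_nonneg (mul_nonneg hδ0.le hδ0.le) hδ0.le]
  rw [h8] at h7
  linarith

end Pool.Agent.Helper54.FF
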